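import Pool.Agent.Helper24.MinZ.Count

/-!
# The completion of a non-weakenable topologically simple ring is a topological field
(MP_e4e71e_al)
-/

open Topology Filter Set Pointwise
open UniformSpace (Completion)

universe u v

set_option linter.unusedSectionVars false
set_option linter.style.haveILetI false
set_option warn.classDefReducibility false

namespace Pool.Agent.Helper24.MinZ

/-- the topology induced by a ring homomorphism -/
def inducedRT {R : Type u} {S : Type v} [CommRing R] [CommRing S] [TopologicalSpace S]
    [IsTopologicalRing S] (f : R →+* S) : RingTopology R :=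
  { TopologicalSpace.induced f inferInstance with
    toIsTopologicalRing := by
      letI : TopologicalSpace R := TopologicalSpace.induced f inferInstance
      haveI h1 : ContinuousMul R := continuousMul_induced f
      haveI h2 : IsTopologicalAddGroup R := topologicalAddGroup_induced f
      exact { continuous_add := h2.continuous_add
              continuous_mul := h1.continuous_mul
              continuous_neg := h2.continuous_neg } }

theorem inducedRT_eq {R : Type u} {S : Type v} [CommRing R] [CommRing S] [TopologicalSpace S]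
    [IsTopologicalRing S] (f : R →+* S) :
    (inducedRT f).toTopologicalSpace = TopologicalSpace.induced f inferInstance := rfl

theorem t2_inducedRT {R : Type u} {S : Type v} [CommRing R] [CommRing S] [TopologicalSpace S]
    [IsTopologicalRing S] [T2Space S] (f : R →+* S) (hf : Function.Injective f) :
    @T2Space R (inducedRT f).toTopologicalSpace := by
  letI : TopologicalSpace R := (inducedRT f).toTopologicalSpace
  exact T2Space.of_injective_continuous hf continuous_induced_dom

section completion

variable {R : Type u} [CommRing R] [UniformSpace R] [IsUniformAddGroup R] [IsTopologicalRing R]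
  [T2Space R] [Nontrivial R]

theorem closed_ideals_completion (hmin : Min R)
    (h : ∀ I : Ideal R, IsClosed (I : Set R) → I = ⊥ ∨ I = ⊤) :
    ∀ I : Ideal (Completion R), IsClosed (I : Set (Completion R)) → I = ⊥ ∨ I = ⊤ := by
  intro I hI
  by_cases hItop : I = ⊤
  · exact Or.inr hItop
  left
  haveI : IsClosed (I : Set (Completion R)) := hI
  haveI : T2Space (Completion R ⧸ I) := by
    haveI : IsClosed ((I.toAddSubgroup : AddSubgroup (Completion R)) : Set (Completion R)) := hI
    exact (inferInstance : T2Space (Completion R ⧸ I.toAddSubgroup))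
  let c : R →+* Completion R := Completion.coeRingHom
  let q : R →+* Completion R ⧸ I := (Ideal.Quotient.mk I).comp c
  have hqc : Continuous q := continuous_quot_mk.comp (Completion.continuous_coe R)
  have hker : RingHom.ker q = ⊥ := by
    have h1 : IsClosed ((RingHom.ker q : Ideal R) : Set R) := by
      have : ((RingHom.ker q : Ideal R) : Set R) = q ⁻¹' {0} := by
        ext x; simp [RingHom.mem_ker]
      rw [this]
      exact isClosed_singleton.preimage hqc
    rcases h _ h1 with h2 | h2
    · exact h2
    · exfalso
      have h3 : (1 : R) ∈ RingHom.ker q := by rw [h2]; trivial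
      rw [RingHom.mem_ker] at h3
      have h4 : (1 : Completion R) ∈ I := by
        rw [← Ideal.Quotient.eq_zero_iff_mem]
        simpa [q] using h3
      exact hItop ((Ideal.eq_top_iff_one I).2 h4)
  have hinj : Function.Injective q := (RingHom.injective_iff_ker_eq_bot q).2 hker
  have heq := hmin (inducedRT q) (t2_inducedRT q hinj) (by
    rw [inducedRT_eq]
    exact continuous_iff_le_induced.1 hqc)
  rw [inducedRT_eq] at heq
  have hnhds : 𝓝 (0 : R) = comap q (𝓝 (q 0)) := by
    have h1 := @nhds_induced (Completion R ⧸ I) R inferInstance q 0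
    rw [heq] at h1
    exact h1
  rw [eq_bot_iff]
  intro s hs
  rw [Ideal.mem_bot]
  -- a filter on `R` converging to `s`
  have hne : (comap ((↑) : R → Completion R) (𝓝 s)).NeBot :=
    Completion.isDenseInducing_coe.comap_nhds_neBot s
  have h1 : Tendsto ((↑) : R → Completion R) (comap ((↑) : R → Completion R) (𝓝 s)) (𝓝 s) :=
    tendsto_comap
  have h2 : Tendsto q (comap ((↑) : R → Completion R) (𝓝 s)) (𝓝 (q 0)) := by
    have h3 : Tendsto (Ideal.Quotient.mk I) (𝓝 s) (𝓝 (Ideal.Quotient.mk I s)) :=
      (continuous_quot_mk.tendsto s)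
    have h4 : (Ideal.Quotient.mk I s) = q 0 := by
      rw [map_zero, Ideal.Quotient.eq_zero_iff_mem]
      exact hs
    rw [h4] at h3
    exact h3.comp h1
  have h3 : Tendsto id (comap ((↑) : R → Completion R) (𝓝 s)) (𝓝 (0 : R)) := by
    rw [hnhds, tendsto_comap_iff]
    exact h2
  have h4 : Tendsto ((↑) : R → Completion R) (comap ((↑) : R → Completion R) (𝓝 s))
      (𝓝 ((0 : R) : Completion R)) := ((Completion.continuous_coe R).tendsto 0).comp h3
  have h5 := tendsto_nhds_unique h1 h4
  rw [h5]
  exact Completion.coe_zero

/-- The main lemma holds in the completion. -/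
theorem main_completion
    (hN : ∀ U ∈ 𝓝 (0 : R), ∃ V ∈ 𝓝 (0 : R), ∀ b c : R, c ∈ V → b * (1 + c) ∈ V → b ∈ U) :
    ∀ U ∈ 𝓝 (0 : Completion R), ∃ V ∈ 𝓝 (0 : Completion R), ∀ b c : Completion R,
      c ∈ V → b * (1 + c) ∈ V → b ∈ U := by
  intro U hU
  obtain ⟨C, hC, hCc, hCU⟩ := exists_mem_nhds_isClosed_subset hU
  have hC0 : ((↑) : R → Completion R) ⁻¹' C ∈ 𝓝 (0 : R) := by
    apply (Completion.continuous_coe R).continuousAt
    rw [Completion.coe_zero]
    exact hC
  obtain ⟨V, hV, hVC⟩ := hN _ hC0
  have hind : IsInducing ((↑) : R → Completion R) := (Completion.isUniformInducing_coe R).isInducing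
  rw [hind.nhds_eq_comap, Completion.coe_zero] at hV
  obtain ⟨W, hW, hWV⟩ := hV
  obtain ⟨O, hOW, hO, h0⟩ := mem_nhds_iff.1 hW
  refine ⟨O, hO.mem_nhds h0, fun b c hc hbc => hCU ?_⟩
  -- the open set of good pairs
  let P : Set (Completion R × Completion R) := {p | p.2 ∈ O ∧ p.1 * (1 + p.2) ∈ O}
  have hP : IsOpen P := (hO.preimage continuous_snd).inter (hO.preimage (by fun_prop))
  let e : R × R → Completion R × Completion R := fun p => ((p.1 : Completion R), (p.2 : Completion R))
  have hdense : DenseRange e := by
    have := (Completion.denseRange_coe (α := R)).prodMap (Completion.denseRange_coe (α := R))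
    exact this
  have hcl : (b, c) ∈ closure (P ∩ range e) := hdense.open_subset_closure_inter hP ⟨hc, hbc⟩
  have hsub : P ∩ range e ⊆ Prod.fst ⁻¹' C := by
    rintro _ ⟨⟨h1, h2⟩, ⟨x, y⟩, rfl⟩
    have h1' : (y : Completion R) ∈ O := h1
    have h2' : (x : Completion R) * (1 + (y : Completion R)) ∈ O := h2
    change (x : Completion R) ∈ C
    refine hVC x y (hWV (hOW h1')) (hWV (hOW ?_))
    rw [Completion.coe_mul, Completion.coe_add, Completion.coe_one]
    exact h2'
  exact (hCc.preimage continuous_fst).closure_subset_iff.2 hsub hcl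

/-- The completion is a field. -/
theorem isField_completion (hmin : Min R)
    (h : ∀ I : Ideal R, IsClosed (I : Set R) → I = ⊥ ∨ I = ⊤) : IsField (Completion R) := by
  have hs : Simple R := simple_of_closed_ideals h
  have hN := main_completion (main_lemma hmin hs)
  have hs' : Simple (Completion R) := simple_of_closed_ideals (closed_ideals_completion hmin h)
  refine ⟨⟨0, 1, ?_⟩, mul_comm, ?_⟩
  · intro h0
    have h1 : ((0 : R) : Completion R) = ((1 : R) : Completion R) := by
      rw [Completion.coe_zero, Completion.coe_one, h0]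
    exact zero_ne_one (Completion.coe_injective R h1)
  intro s hs0
  -- multiplication by `s` is a topological embedding
  have hemb : ∀ W ∈ 𝓝 (0 : Completion R), ∃ U ∈ 𝓝 (0 : Completion R), ∀ b, s * b ∈ U → b ∈ W := by
    intro W hW
    obtain ⟨V, hV, hVW⟩ := hN W hW
    obtain ⟨y, hy⟩ := hs' s hs0 V hV
    have h1 : (fun x => x * y) ⁻¹' V ∈ 𝓝 (0 : Completion R) := by
      apply (continuous_mul_const y).continuousAt
      simpa using hV
    refine ⟨_, h1, fun b hb => hVW b (s * y - 1) hy ?_⟩
    have : b * (1 + (s * y - 1)) = s * b * y := by ring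
    rw [this]
    exact hb
  let φ : Completion R →+ Completion R := AddMonoidHom.mulLeft s
  have hφ : IsUniformInducing φ := by
    have hcont : Continuous φ := continuous_const_mul s
    refine ⟨?_⟩
    rw [uniformity_eq_comap_nhds_zero (Completion R), comap_comap]
    have h1 : (fun x : Completion R × Completion R => x.2 - x.1) ∘
        (fun x : Completion R × Completion R => (φ x.1, φ x.2)) =
        φ ∘ (fun x : Completion R × Completion R => x.2 - x.1) := by
      funext x
      simp [φ, mul_sub]
    rw [h1, ← comap_comap]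
    congr 1
    refine le_antisymm ?_ ?_
    · intro W hW
      obtain ⟨U, hU, hUW⟩ := hemb W hW
      exact ⟨U, hU, fun b hb => hUW b hb⟩
    · rw [← map_le_iff_le_comap]
      have := hcont.tendsto 0
      rwa [map_zero] at this
  have hclosed : IsClosed (range φ) := by
    have h1 : IsComplete (range φ) := hφ.isComplete_range
    exact h1.isClosed
  have hone : (1 : Completion R) ∈ range φ := by
    rw [← hclosed.closure_eq, mem_closure_iff_nhds]
    intro W hW
    have h1 : (fun x => x + 1) ⁻¹' W ∈ 𝓝 (0 : Completion R) := by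
      have : ContinuousAt (fun x : Completion R => x + 1) 0 := by fun_prop
      apply this
      simpa using hW
    obtain ⟨y, hy⟩ := hs' s hs0 _ h1
    refine ⟨s * y, ?_, ⟨y, rfl⟩⟩
    simpa using hy
  obtain ⟨y, hy⟩ := hone
  exact ⟨y, hy⟩

end completion

/-- Continuity of the inversion from the main lemma. -/
theorem divisionRing_of_main {K : Type u} [Field K] [TopologicalSpace K] [IsTopologicalRing K]
    [T2Space K]
    (hN : ∀ U ∈ 𝓝 (0 : K), ∃ V ∈ 𝓝 (0 : K), ∀ b c : K, c ∈ V → b * (1 + c) ∈ V → b ∈ U) :
    IsTopologicalDivisionRing K := by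
  have h1 : ContinuousAt (Inv.inv : K → K) 1 := by
    rw [ContinuousAt, inv_one]
    intro W hW
    rw [mem_map]
    have h2 : (fun x => 1 + x) ⁻¹' W ∈ 𝓝 (0 : K) := by
      have : ContinuousAt (fun x : K => 1 + x) 0 := by fun_prop
      apply this
      simpa using hW
    obtain ⟨V, hV, hVW⟩ := hN _ h2
    have h3 : (fun x : K => x - 1) ⁻¹' V ∈ 𝓝 (1 : K) := by
      have : ContinuousAt (fun x : K => x - 1) 1 := by fun_prop
      apply this
      simpa using hV
    have h4 : (fun x : K => 1 - x) ⁻¹' V ∈ 𝓝 (1 : K) := by
      have : ContinuousAt (fun x : K => 1 - x) 1 := by fun_prop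
      apply this
      simpa using hV
    have h5 : ({0}ᶜ : Set K) ∈ 𝓝 (1 : K) := isOpen_compl_singleton.mem_nhds (by simp)
    filter_upwards [h3, h4, h5] with x hx3 hx4 hx5
    have hx0 : x ≠ 0 := by simpa using hx5
    have h6 := hVW (x⁻¹ - 1) (x - 1) hx3 (by
      have : (x⁻¹ - 1) * (1 + (x - 1)) = 1 - x := by
        field_simp
        ring
      rw [this]
      exact hx4)
    simpa using h6
  refine { continuousAt_inv₀ := fun x hx => ?_ }
  have h2 : (Inv.inv : K → K) = fun y => (y * x⁻¹)⁻¹ * x⁻¹ := by
    funext y
    rcases eq_or_ne y 0 with rfl | hy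
    · simp
    · field_simp
  rw [h2]
  have h3 : ContinuousAt (fun y : K => y * x⁻¹) x := by fun_prop
  have h4 : ContinuousAt (Inv.inv : K → K) (x * x⁻¹) := by
    rw [mul_inv_cancel₀ hx]
    exact h1
  have h5 : ContinuousAt (fun y : K => (y * x⁻¹)⁻¹) x :=
    ContinuousAt.comp (f := fun y : K => y * x⁻¹) (g := (Inv.inv : K → K)) h4 h3
  exact h5.mul continuousAt_const

end Pool.Agent.Helper24.MinZ
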