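import Mathlib

/-!
# Non-weakenable ring topologies: the first consequences (MP_e4e71e_al)
-/

open Topology Filter Set Pointwise

universe u

set_option linter.unusedSectionVars false
set_option linter.style.haveILetI false
set_option warn.classDefReducibility false

namespace Pool.Agent.Helper24.MinZ

section

variable (R : Type u) [CommRing R] [TopologicalSpace R]

/-- No Hausdorff ring topology is strictly coarser than the given one. -/
def Min : Prop :=
  ∀ s : RingTopology R, @T2Space R s.toTopologicalSpace →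
    (inferInstance : TopologicalSpace R) ≤ s.toTopologicalSpace →
    s.toTopologicalSpace = (inferInstance : TopologicalSpace R)

/-- Every nonzero principal ideal is dense (formulated at the point `1`). -/
def Simple : Prop :=
  ∀ b : R, b ≠ 0 → ∀ U ∈ 𝓝 (0 : R), ∃ y : R, b * y - 1 ∈ U

end

variable {R : Type u} [CommRing R] [TopologicalSpace R] [IsTopologicalRing R]

/-- Closed ideals are trivial implies that every nonzero principal ideal is dense. -/
theorem simple_of_closed_ideals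
    (h : ∀ I : Ideal R, IsClosed (I : Set R) → I = ⊥ ∨ I = ⊤) : Simple R := by
  intro b hb U hU
  have h1 : (Ideal.span {b}).closure = ⊤ := by
    rcases h (Ideal.span {b}).closure (by rw [Ideal.coe_closure]; exact isClosed_closure) with h2 | h2
    · exfalso
      have h3 : b ∈ (Ideal.span {b}).closure :=
        subset_closure (Ideal.mem_span_singleton_self b)
      rw [h2] at h3
      exact hb h3
    · exact h2
  have h2 : (1 : R) ∈ closure ((Ideal.span {b} : Ideal R) : Set R) := by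
    rw [← Ideal.coe_closure, h1]
    trivial
  have h3 : (fun x : R => x - 1) ⁻¹' U ∈ 𝓝 (1 : R) := by
    have : ContinuousAt (fun x : R => x - 1) 1 := (continuous_id.sub continuous_const).continuousAt
    apply this
    simpa using hU
  obtain ⟨x, hx, hx'⟩ := mem_closure_iff_nhds.1 h2 _ h3
  obtain ⟨y, hy⟩ := Ideal.mem_span_singleton'.1 hx'
  refine ⟨y, ?_⟩
  have : b * y = x := by rw [← hy, mul_comm]
  rw [this]
  exact hx

/-- A ring filter basis of neighbourhoods with trivial intersection is a neighbourhood basis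
of zero, if the topology is non-weakenable. -/
theorem collapse (hmin : Min R) (B : RingFilterBasis R) (hle : ∀ U ∈ B, U ∈ 𝓝 (0 : R))
    (hsep : ∀ x : R, x ≠ 0 → ∃ U ∈ B, x ∉ U) : ∀ U ∈ 𝓝 (0 : R), ∃ V ∈ B, V ⊆ U := by
  have hT2 : @T2Space R B.topology := by
    letI := B.topology
    haveI := B.isTopologicalRing
    refine IsTopologicalAddGroup.t2Space_of_zero_sep fun x hx => ?_
    obtain ⟨U, hU, hxU⟩ := hsep x hx
    exact ⟨U, B.toAddGroupFilterBasis.mem_nhds_zero hU, hxU⟩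
  have hcoarse : (inferInstance : TopologicalSpace R) ≤ B.topology := by
    refine le_of_nhds_le_nhds fun x => ?_
    have h1 : @nhds R B.topology x = B.toAddGroupFilterBasis.N x :=
      B.toAddGroupFilterBasis.nhds_eq
    rw [h1]
    intro W hW
    have h2 : (fun y => x + y) ⁻¹' W ∈ B.toAddGroupFilterBasis.toFilterBasis.filter := hW
    obtain ⟨U, hU, hUW⟩ := B.toAddGroupFilterBasis.toFilterBasis.hasBasis.mem_iff.1 h2
    have h3 : (fun y => x + y) ⁻¹' W ∈ 𝓝 (0 : R) := mem_of_superset (hle U hU) hUW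
    have h4 : ContinuousAt (fun z => -x + z) x := (continuous_const.add continuous_id).continuousAt
    have h5 : (fun z => -x + z) ⁻¹' ((fun y => x + y) ⁻¹' W) ∈ 𝓝 x := by
      apply h4
      simpa using h3
    refine mem_of_superset h5 fun z hz => ?_
    simpa using hz
  have heq := hmin ⟨B.topology, B.isTopologicalRing⟩ hT2 hcoarse
  intro U hU
  have h1 : U ∈ @nhds R B.topology 0 := by
    have : @nhds R B.topology 0 = 𝓝 (0 : R) := by
      change B.topology = _ at heq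
      rw [heq]
    rw [this]
    exact hU
  exact B.toAddGroupFilterBasis.nhds_zero_hasBasis.mem_iff.1 h1

/-! ### the basic lemma -/

/-- the enlarged neighbourhoods -/
def Nset (U : Set R) : Set R := {b | ∃ c ∈ U, b * (1 + c) ∈ U}

theorem Nset_mono {U V : Set R} (h : U ⊆ V) : Nset U ⊆ Nset V := by
  rintro b ⟨c, hc, hb⟩
  exact ⟨c, h hc, h hb⟩

theorem subset_Nset {U : Set R} (hU : U ∈ 𝓝 (0 : R)) : U ⊆ Nset U := by
  intro b hb
  exact ⟨0, mem_of_mem_nhds hU, by simpa using hb⟩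

/-- small neighbourhoods adapted to polynomial expressions -/
theorem exists_small (f : R → R → R → R → R) (hf : Continuous fun p : R × R × R × R =>
    f p.1 p.2.1 p.2.2.1 p.2.2.2) (h0 : f 0 0 0 0 = 0) {U : Set R} (hU : U ∈ 𝓝 (0 : R)) :
    ∃ V ∈ 𝓝 (0 : R), ∀ a ∈ V, ∀ b ∈ V, ∀ c ∈ V, ∀ d ∈ V, f a b c d ∈ U := by
  have h1 : (fun p : R × R × R × R => f p.1 p.2.1 p.2.2.1 p.2.2.2) ⁻¹' U ∈
      𝓝 ((0, 0, 0, 0) : R × R × R × R) := by
    apply hf.continuousAt
    simpa [h0] using hU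
  rw [nhds_prod_eq, nhds_prod_eq, nhds_prod_eq] at h1
  obtain ⟨A, hA, B, hB, hAB⟩ := mem_prod_iff.1 h1
  obtain ⟨A', hA', B', hB', hAB'⟩ := mem_prod_iff.1 hB
  obtain ⟨A'', hA'', B'', hB'', hAB''⟩ := mem_prod_iff.1 hB'
  refine ⟨A ∩ (A' ∩ (A'' ∩ B'')), inter_mem hA (inter_mem hA' (inter_mem hA'' hB'')), ?_⟩
  rintro a ⟨ha, -⟩ b ⟨-, hb, -⟩ c ⟨-, -, hc, -⟩ d ⟨-, -, -, hd⟩
  exact @hAB (a, b, c, d) ⟨ha, @hAB' (b, c, d) ⟨hb, @hAB'' (c, d) ⟨hc, hd⟩⟩⟩

/-- The ring topology with neighbourhoods `Nset U`. -/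
def Nbasis (R : Type u) [CommRing R] [TopologicalSpace R] [IsTopologicalRing R] :
    RingFilterBasis R where
  sets := {S | ∃ U ∈ 𝓝 (0 : R), S = Nset U}
  nonempty := ⟨_, univ, univ_mem, rfl⟩
  inter_sets := by
    rintro _ _ ⟨U, hU, rfl⟩ ⟨V, hV, rfl⟩
    exact ⟨Nset (U ∩ V), ⟨_, inter_mem hU hV, rfl⟩,
      subset_inter (Nset_mono inter_subset_left) (Nset_mono inter_subset_right)⟩
  zero' := by
    rintro _ ⟨U, hU, rfl⟩
    exact subset_Nset hU (mem_of_mem_nhds hU)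
  add' := by
    rintro _ ⟨U, hU, rfl⟩
    obtain ⟨V, hV, hVU⟩ := exists_small (fun x y c d => x * (1 + d) + y * (1 + c))
      (by fun_prop) (by simp) hU
    obtain ⟨W, hW, hWU⟩ := exists_small (fun c d _ _ => c + d + c * d)
      (by fun_prop) (by simp) hU
    refine ⟨Nset (V ∩ W), ⟨_, inter_mem hV hW, rfl⟩, ?_⟩
    rintro _ ⟨a, ⟨c, hc, ha⟩, b, ⟨d, hd, hb⟩, rfl⟩
    refine ⟨c + d + c * d, hWU c hc.2 d hd.2 c hc.2 c hc.2, ?_⟩
    have := hVU _ ha.1 _ hb.1 _ hc.1 _ hd.1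
    convert this using 1
    ring
  neg' := by
    rintro _ ⟨U, hU, rfl⟩
    obtain ⟨V, hV, hVU⟩ := exists_small (fun x _ _ _ => -x) (by fun_prop) (by simp) hU
    refine ⟨Nset (U ∩ V), ⟨_, inter_mem hU hV, rfl⟩, ?_⟩
    rintro b ⟨c, hc, hb⟩
    refine ⟨c, hc.1, ?_⟩
    have := hVU _ hb.2 _ hb.2 _ hb.2 _ hb.2
    convert this using 1
    ring
  conj' := by
    rintro x₀ _ ⟨U, hU, rfl⟩
    refine ⟨Nset U, ⟨_, hU, rfl⟩, fun x hx => ?_⟩
    simpa using hx
  mul' := by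
    rintro _ ⟨U, hU, rfl⟩
    obtain ⟨V, hV, hVU⟩ := exists_small (fun x y _ _ => x * y)
      (by fun_prop) (by simp) hU
    obtain ⟨W, hW, hWU⟩ := exists_small (fun c d _ _ => c + d + c * d)
      (by fun_prop) (by simp) hU
    refine ⟨Nset (V ∩ W), ⟨_, inter_mem hV hW, rfl⟩, ?_⟩
    rintro _ ⟨a, ⟨c, hc, ha⟩, b, ⟨d, hd, hb⟩, rfl⟩
    refine ⟨c + d + c * d, hWU c hc.2 d hd.2 c hc.2 c hc.2, ?_⟩
    have := hVU _ ha.1 _ hb.1 _ ha.1 _ ha.1
    convert this using 1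
    ring
  mul_left' := by
    rintro x₀ _ ⟨U, hU, rfl⟩
    obtain ⟨V, hV, hVU⟩ := exists_small (fun x _ _ _ => x₀ * x) (by fun_prop) (by simp) hU
    refine ⟨Nset (U ∩ V), ⟨_, inter_mem hU hV, rfl⟩, ?_⟩
    rintro b ⟨c, hc, hb⟩
    refine ⟨c, hc.1, ?_⟩
    have := hVU _ hb.2 _ hb.2 _ hb.2 _ hb.2
    convert this using 1
    ring
  mul_right' := by
    rintro x₀ _ ⟨U, hU, rfl⟩
    obtain ⟨V, hV, hVU⟩ := exists_small (fun x _ _ _ => x₀ * x) (by fun_prop) (by simp) hU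
    refine ⟨Nset (U ∩ V), ⟨_, inter_mem hU hV, rfl⟩, ?_⟩
    rintro b ⟨c, hc, hb⟩
    refine ⟨c, hc.1, ?_⟩
    have := hVU _ hb.2 _ hb.2 _ hb.2 _ hb.2
    convert this using 1
    ring

/-- **Main lemma.** If `c → 0` and `b (1 + c) → 0` then `b → 0`. -/
theorem main_lemma [T2Space R] [Nontrivial R] (hmin : Min R) (hs : Simple R) :
    ∀ U ∈ 𝓝 (0 : R), ∃ V ∈ 𝓝 (0 : R), ∀ b c : R, c ∈ V → b * (1 + c) ∈ V → b ∈ U := by
  intro U hU
  have hle : ∀ U ∈ Nbasis R, U ∈ 𝓝 (0 : R) := by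
    rintro _ ⟨V, hV, rfl⟩
    exact mem_of_superset hV (subset_Nset hV)
  have hsep : ∀ b : R, b ≠ 0 → ∃ U ∈ Nbasis R, b ∉ U := by
    intro b hb
    -- a neighbourhood that does not contain `1`
    have h1 : ({-1}ᶜ : Set R) ∈ 𝓝 (0 : R) :=
      isOpen_compl_singleton.mem_nhds (by simp)
    obtain ⟨W, hW, hW1⟩ := exists_small (fun x y z _ => y + z + y * z - x)
      (by fun_prop) (by simp) h1
    obtain ⟨y, hy⟩ := hs b hb W hW
    obtain ⟨V, hV, hVW⟩ := exists_small (fun x _ _ _ => x * y) (by fun_prop) (by simp) hW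
    refine ⟨Nset (V ∩ W), ⟨_, inter_mem hV hW, rfl⟩, ?_⟩
    rintro ⟨c, hc, hbc⟩
    have h2 := hVW _ hbc.1 _ hbc.1 _ hbc.1 _ hbc.1
    have h3 := hW1 _ h2 _ hy _ hc.2 _ hy
    apply h3
    rw [mem_singleton_iff]
    ring
  obtain ⟨_, ⟨V, hV, rfl⟩, hVU⟩ := collapse hmin (Nbasis R) hle hsep U hU
  exact ⟨V, hV, fun b c hc hb => hVU ⟨c, hc, hb⟩⟩

end Pool.Agent.Helper24.MinZ
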