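import Pool.Agent.Helper24.MinZ.Core

/-!
# First countability and unboundedness (MP_e4e71e_al)
-/

open Topology Filter Set Pointwise

universe u

set_option linter.unusedSectionVars false
set_option linter.style.haveILetI false
set_option warn.classDefReducibility false

namespace Pool.Agent.Helper24.MinZ

variable {R : Type u} [CommRing R] [TopologicalSpace R] [IsTopologicalRing R]

/-- the step of the construction of a countable basis -/
theorem exists_step [T2Space R] (r : ℕ → R) (k : ℕ) (U : Set R) (hU : U ∈ 𝓝 (0 : R)) :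
    ∃ V ∈ 𝓝 (0 : R), V + V ⊆ U ∧ (∀ x ∈ V, -x ∈ U) ∧ V * V ⊆ U ∧
      (∀ i ≤ k, ∀ x ∈ V, r i * x ∈ U) ∧ ∀ i ≤ k, r i ≠ 0 → r i ∉ V := by
  obtain ⟨A, hA, hA'⟩ := exists_small (fun x y _ _ => x + y) (by fun_prop) (by simp) hU
  obtain ⟨B, hB, hB'⟩ := exists_small (fun x _ _ _ => -x) (by fun_prop) (by simp) hU
  obtain ⟨C, hC, hC'⟩ := exists_small (fun x y _ _ => x * y) (by fun_prop) (by simp) hU
  have hD : (⋂ i ∈ Finset.range (k + 1), (fun x => r i * x) ⁻¹' U) ∈ 𝓝 (0 : R) := by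
    refine (Finset.iInter_mem_sets _).2 fun i _ => ?_
    have h1 : ContinuousAt (fun x => r i * x) 0 := (continuous_const_mul (r i)).continuousAt
    apply h1
    simpa using hU
  have hE : (⋂ i ∈ Finset.range (k + 1), {x : R | r i ≠ 0 → x ≠ r i}) ∈ 𝓝 (0 : R) := by
    refine (Finset.iInter_mem_sets _).2 fun i _ => ?_
    by_cases hi : r i = 0
    · have : {x : R | r i ≠ 0 → x ≠ r i} = univ := by
        ext x; simp [hi]
      rw [this]
      exact univ_mem
    · have : {x : R | r i ≠ 0 → x ≠ r i} = {r i}ᶜ := by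
        ext x; simp [hi]
      rw [this]
      exact isOpen_compl_singleton.mem_nhds (by simpa using fun h => hi h.symm)
  refine ⟨A ∩ (B ∩ (C ∩ ((⋂ i ∈ Finset.range (k + 1), (fun x => r i * x) ⁻¹' U) ∩
    (⋂ i ∈ Finset.range (k + 1), {x : R | r i ≠ 0 → x ≠ r i})))),
    inter_mem hA (inter_mem hB (inter_mem hC (inter_mem hD hE))), ?_, ?_, ?_, ?_, ?_⟩
  · rintro _ ⟨x, hx, y, hy, rfl⟩
    exact hA' x hx.1 y hy.1 x hx.1 x hx.1
  · rintro x ⟨-, hx, -⟩
    exact hB' x hx x hx x hx x hx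
  · rintro _ ⟨x, ⟨-, -, hx, -⟩, y, ⟨-, -, hy, -⟩, rfl⟩
    exact hC' x hx y hy x hx x hx
  · rintro i hi x ⟨-, -, -, hx, -⟩
    simp only [mem_iInter, Finset.mem_range] at hx
    exact hx i (by omega)
  · rintro i hi hi0 ⟨-, -, -, -, hx⟩
    simp only [mem_iInter, Finset.mem_range] at hx
    exact hx i (by omega) hi0 rfl

/-- A non-weakenable Hausdorff ring topology on a countable ring is first countable. -/
theorem countably_generated [T2Space R] [Countable R] (hmin : Min R) :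
    (𝓝 (0 : R)).IsCountablyGenerated := by
  obtain ⟨r, hr⟩ := exists_surjective_nat R
  choose V hV hVadd hVneg hVmul hVr hVne using exists_step (R := R) r
  let U : ℕ → {U : Set R // U ∈ 𝓝 (0 : R)} := fun n =>
    Nat.rec ⟨univ, univ_mem⟩ (fun k W => ⟨V k W.1 W.2, hV k W.1 W.2⟩) n
  have hUs : ∀ n, (U (n + 1)).1 = V n (U n).1 (U n).2 := fun n => rfl
  have hanti1 : ∀ n, (U (n + 1)).1 ⊆ (U n).1 := by
    intro n x hx
    apply hVadd n _ (U n).2
    rw [hUs] at hx
    exact ⟨x, hx, 0, mem_of_mem_nhds (hV n _ (U n).2), add_zero x⟩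
  have hanti : Antitone fun n => (U n).1 := antitone_nat_of_succ_le hanti1
  let B : RingFilterBasis R :=
  { sets := range fun n => (U n).1
    nonempty := ⟨_, 0, rfl⟩
    inter_sets := by
      rintro _ _ ⟨m, rfl⟩ ⟨n, rfl⟩
      exact ⟨_, ⟨max m n, rfl⟩, subset_inter (hanti (le_max_left _ _)) (hanti (le_max_right _ _))⟩
    zero' := by
      rintro _ ⟨n, rfl⟩
      exact mem_of_mem_nhds (U n).2
    add' := by
      rintro _ ⟨n, rfl⟩
      exact ⟨_, ⟨n + 1, rfl⟩, hVadd n _ (U n).2⟩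
    neg' := by
      rintro _ ⟨n, rfl⟩
      exact ⟨_, ⟨n + 1, rfl⟩, fun x hx => hVneg n _ (U n).2 x hx⟩
    conj' := by
      rintro x₀ _ ⟨n, rfl⟩
      refine ⟨_, ⟨n, rfl⟩, fun x hx => ?_⟩
      simpa using hx
    mul' := by
      rintro _ ⟨n, rfl⟩
      exact ⟨_, ⟨n + 1, rfl⟩, hVmul n _ (U n).2⟩
    mul_left' := by
      rintro x₀ _ ⟨n, rfl⟩
      obtain ⟨i, rfl⟩ := hr x₀
      refine ⟨_, ⟨max n i + 1, rfl⟩, fun x hx => ?_⟩
      exact hanti (le_max_left n i) (hVr (max n i) _ (U (max n i)).2 i (le_max_right _ _) x hx)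
    mul_right' := by
      rintro x₀ _ ⟨n, rfl⟩
      obtain ⟨i, rfl⟩ := hr x₀
      refine ⟨_, ⟨max n i + 1, rfl⟩, fun x hx => ?_⟩
      have := hanti (le_max_left n i) (hVr (max n i) _ (U (max n i)).2 i (le_max_right _ _) x hx)
      simpa [mul_comm] using this }
  have hle : ∀ W ∈ B, W ∈ 𝓝 (0 : R) := by
    rintro _ ⟨n, rfl⟩
    exact (U n).2
  have hsep : ∀ x : R, x ≠ 0 → ∃ W ∈ B, x ∉ W := by
    intro x hx
    obtain ⟨i, rfl⟩ := hr x
    exact ⟨_, ⟨i + 1, rfl⟩, hVne i _ (U i).2 i le_rfl hx⟩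
  have hbasis : (𝓝 (0 : R)).HasBasis (fun _ : ℕ => True) fun n => (U n).1 := by
    constructor
    intro W
    constructor
    · intro hW
      obtain ⟨_, ⟨n, rfl⟩, hn⟩ := collapse hmin B hle hsep W hW
      exact ⟨n, trivial, hn⟩
    · rintro ⟨n, -, hn⟩
      exact mem_of_superset (U n).2 hn
  exact hbasis.isCountablyGenerated

/-- A Hausdorff topological field of characteristic zero in which the integers are dense is not
discrete. -/
theorem singleton_zero_not_mem_nhds {K : Type u} [Field K] [TopologicalSpace K]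
    [IsTopologicalRing K] [T2Space K] [CharZero K] (hd : DenseRange (Int.cast : ℤ → K)) :
    ({0} : Set K) ∉ 𝓝 (0 : K) := by
  intro h1
  have h2 : IsOpen ({(2 : K)⁻¹} : Set K) := by
    have h3 : IsOpen ({(0 : K)} : Set K) := by
      rw [isOpen_iff_mem_nhds]
      rintro x rfl
      exact h1
    have h4 : ({(2 : K)⁻¹} : Set K) = (fun x => x - 2⁻¹) ⁻¹' {0} := by
      ext x; simp [sub_eq_zero]
    rw [h4]
    exact h3.preimage (by fun_prop)
  obtain ⟨m, hm⟩ := hd.exists_mem_open h2 ⟨_, rfl⟩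
  rw [mem_singleton_iff] at hm
  have h5 : ((2 * m : ℤ) : K) = ((1 : ℤ) : K) := by
    push_cast
    rw [hm]
    simp
  have h6 : 2 * m = 1 := Int.cast_injective h5
  omega

theorem exists_int_mem {K : Type u} [Field K] [TopologicalSpace K]
    [IsTopologicalRing K] [T2Space K] [CharZero K] (hd : DenseRange (Int.cast : ℤ → K))
    {U : Set K} (hU : U ∈ 𝓝 (0 : K)) : ∃ n : ℕ, 2 ≤ n ∧ (n : K) ∈ U := by
  obtain ⟨O, hOU, hO, h0⟩ := mem_nhds_iff.1 hU
  have hO' : IsOpen (O ∩ (fun x => -x) ⁻¹' O ∩ ({1, -1} : Set K)ᶜ) :=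
    (hO.inter (hO.preimage continuous_neg)).inter (toFinite _).isClosed.isOpen_compl
  have h0' : (0 : K) ∈ O ∩ (fun x => -x) ⁻¹' O ∩ ({1, -1} : Set K)ᶜ := by
    refine ⟨⟨h0, by simpa using h0⟩, ?_⟩
    simp
  obtain ⟨x, hx, hx0⟩ : ∃ x ∈ O ∩ (fun x => -x) ⁻¹' O ∩ ({1, -1} : Set K)ᶜ, x ≠ 0 := by
    by_contra hcon
    push Not at hcon
    apply singleton_zero_not_mem_nhds hd
    exact mem_of_superset (hO'.mem_nhds h0') fun x hx => hcon x hx
  obtain ⟨m, hm⟩ := hd.exists_mem_open (hO'.inter (isOpen_compl_singleton (x := (0 : K))))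
    ⟨x, hx, hx0⟩
  obtain ⟨⟨⟨h1, h2⟩, h3⟩, h4⟩ := hm
  have h5 : m ≠ 0 := by
    rintro rfl
    exact h4 (by simp)
  have h6 : m ≠ 1 := by
    rintro rfl
    exact h3 (by simp)
  have h7 : m ≠ -1 := by
    rintro rfl
    exact h3 (by simp)
  refine ⟨m.natAbs, by omega, hOU ?_⟩
  rcases Int.natAbs_eq m with h8 | h8
  · have : ((m.natAbs : ℕ) : K) = (m : K) := by
      conv_rhs => rw [h8]
      simp
    rw [this]
    exact h1
  · have : ((m.natAbs : ℕ) : K) = -(m : K) := by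
      conv_rhs => rw [h8]
      simp
    rw [this]
    exact h2

/-- A Hausdorff topological field of characteristic zero in which the integers are dense is not
locally bounded. -/
theorem not_locally_bounded {K : Type u} [Field K] [TopologicalSpace K] [IsTopologicalRing K]
    [T2Space K] [CharZero K] (hd : DenseRange (Int.cast : ℤ → K)) :
    ¬ ∃ V ∈ 𝓝 (0 : K), ∀ U ∈ 𝓝 (0 : K), ∃ W ∈ 𝓝 (0 : K), ∀ w ∈ W, ∀ v ∈ V, w * v ∈ U := by
  rintro ⟨V, hV, hVb⟩
  -- `V + V` is bounded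
  have hVV : ∀ U ∈ 𝓝 (0 : K), ∃ W ∈ 𝓝 (0 : K), ∀ w ∈ W, ∀ v ∈ V, ∀ v' ∈ V, w * (v + v') ∈ U := by
    intro U hU
    obtain ⟨A, hA, hA'⟩ := exists_small (fun x y _ _ => x + y) (by fun_prop) (by simp) hU
    obtain ⟨W, hW, hW'⟩ := hVb A hA
    refine ⟨W, hW, fun w hw v hv v' hv' => ?_⟩
    rw [mul_add]
    exact hA' _ (hW' w hw v hv) _ (hW' w hw v' hv') _ (hW' w hw v hv) _ (hW' w hw v hv)
  obtain ⟨W, hW, hWV⟩ := hVV V hV
  obtain ⟨n, hn2, hnW⟩ := exists_int_mem hd hW
  -- a small nonzero integer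
  have hD : (⋂ i ∈ Finset.range n, (fun x : K => x * (i : K)) ⁻¹' V) ∈ 𝓝 (0 : K) := by
    refine (Finset.iInter_mem_sets _).2 fun i _ => ?_
    have h1 : ContinuousAt (fun x : K => x * (i : K)) 0 := (continuous_mul_const _).continuousAt
    apply h1
    simpa using hV
  obtain ⟨a, ha2, haD⟩ := exists_int_mem hd hD
  have ha0 : (a : K) ≠ 0 := by
    have : a ≠ 0 := by omega
    exact_mod_cast this
  simp only [mem_iInter, Finset.mem_range, mem_preimage] at haD
  have h0V : (0 : K) ∈ V := mem_of_mem_nhds hV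
  have key : ∀ N : ℕ, ∃ v ∈ V, ∃ v' ∈ V, (a : K) * (N : K) = v + v' := by
    intro N
    induction N using Nat.strong_induction_on with
    | _ N ih =>
      rcases Nat.eq_zero_or_pos N with rfl | hN
      · exact ⟨0, h0V, 0, h0V, by simp⟩
      · obtain ⟨v, hv, v', hv', he⟩ := ih (N / n) (Nat.div_lt_self hN (by omega))
        refine ⟨(a : K) * ((N % n : ℕ) : K), haD _ (Nat.mod_lt _ (by omega)),
          (n : K) * (v + v'), hWV _ hnW v hv v' hv', ?_⟩
        rw [← he]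
        have h1 : (N : K) = ((N % n : ℕ) : K) + (n : K) * ((N / n : ℕ) : K) := by
          rw [← Nat.cast_mul, ← Nat.cast_add, Nat.mod_add_div]
        conv_lhs => rw [h1]
        ring
  -- a closed neighbourhood without `1`
  obtain ⟨C, hC, hCc, hC1⟩ : ∃ C ∈ 𝓝 (0 : K), IsClosed C ∧ C ⊆ {(1 : K)}ᶜ :=
    exists_mem_nhds_isClosed_subset (isOpen_compl_singleton.mem_nhds (by simp))
  obtain ⟨C', hC', hC''⟩ := exists_small (fun x _ _ _ => -x) (by fun_prop) (by simp) hC
  obtain ⟨W', hW', hWC⟩ := hVV (C ∩ C') (inter_mem hC hC')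
  obtain ⟨w, hw2, hwW⟩ := exists_int_mem hd hW'
  have hw0 : (w : K) ≠ 0 := by
    have : w ≠ 0 := by omega
    exact_mod_cast this
  have hint : ∀ z : ℤ, (w : K) * ((a : K) * (z : K)) ∈ C := by
    intro z
    rcases Int.natAbs_eq z with h8 | h8
    · obtain ⟨v, hv, v', hv', he⟩ := key z.natAbs
      have : (z : K) = ((z.natAbs : ℕ) : K) := by
        conv_lhs => rw [h8]
        simp
      rw [this, he]
      exact (hWC _ hwW v hv v' hv').1
    · obtain ⟨v, hv, v', hv', he⟩ := key z.natAbs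
      have : (z : K) = -((z.natAbs : ℕ) : K) := by
        conv_lhs => rw [h8]
        simp
      rw [this, mul_neg, mul_neg, he]
      have h9 := (hWC _ hwW v hv v' hv').2
      exact hC'' _ h9 _ h9 _ h9 _ h9
  have hall : ∀ x : K, (w : K) * ((a : K) * x) ∈ C := by
    intro x
    refine hd.induction_on x ?_ hint
    exact hCc.preimage (by fun_prop)
  have h1 := hC1 (hall ((w : K) * a)⁻¹)
  apply h1
  rw [mem_singleton_iff]
  field_simp

end Pool.Agent.Helper24.MinZ
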