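import Pool.Agent.Helper24.MinZ.Compl

/-!
# Transfer between a ring and a topological field in which it is dense (MP_e4e71e_al)
-/

open Topology Filter Set Pointwise
open UniformSpace (Completion)

universe u v

set_option linter.unusedSectionVars false
set_option linter.style.haveILetI false
set_option warn.classDefReducibility false

namespace Pool.Agent.Helper24.MinZ

theorem min_ext {R : Type u} {K : Type v} [CommRing R] [TopologicalSpace R] [IsTopologicalRing R]
    [CommRing K] [tK : TopologicalSpace K] [IsTopologicalRing K] (f : R →+* K)
    (hind : IsInducing f) (hinj : Function.Injective f) (hd : DenseRange f) (hmin : Min R) :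
    Min K := by
  intro s hT2 hle
  let s' : RingTopology R := @inducedRT R K _ _ s.toTopologicalSpace s.toIsTopologicalRing f
  have hs' : s'.toTopologicalSpace = TopologicalSpace.induced f s.toTopologicalSpace := rfl
  have hT2' : @T2Space R s'.toTopologicalSpace :=
    @t2_inducedRT R K _ _ s.toTopologicalSpace s.toIsTopologicalRing hT2 f hinj
  have heq := hmin s' hT2' (by
    rw [hs']
    have h1 : (inferInstance : TopologicalSpace R) = TopologicalSpace.induced f tK := hind.eq_induced
    rw [h1]
    exact induced_mono hle)
  rw [hs'] at heq
  have hG : @IsTopologicalAddGroup K s.toTopologicalSpace _ := by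
    letI := s.toTopologicalSpace
    haveI := s.toIsTopologicalRing
    infer_instance
  refine IsTopologicalAddGroup.ext hG inferInstance (le_antisymm ?_ ?_)
  · intro U hU
    obtain ⟨C, hC, hCc, hCU⟩ := exists_mem_nhds_isClosed_subset hU
    have h1 : f ⁻¹' C ∈ 𝓝 (0 : R) := by
      apply hind.continuous.continuousAt
      rw [map_zero]
      exact hC
    have h2 : 𝓝 (0 : R) = comap f (@nhds K s.toTopologicalSpace 0) := by
      have h3 := @nhds_induced K R s.toTopologicalSpace f 0
      rw [heq, map_zero] at h3
      exact h3
    rw [h2] at h1
    obtain ⟨W, hW, hWC⟩ := h1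
    obtain ⟨O, hOW, hO, h0⟩ := (@mem_nhds_iff K s.toTopologicalSpace 0 W).1 hW
    have hO' : IsOpen[tK] O := hle O hO
    refine (@mem_nhds_iff K s.toTopologicalSpace 0 U).2 ⟨O, fun x hx => hCU ?_, hO, h0⟩
    have h4 : x ∈ closure (O ∩ range f) := hd.open_subset_closure_inter hO' hx
    have h5 : O ∩ range f ⊆ C := by
      rintro _ ⟨h6, y, rfl⟩
      exact hWC (hOW h6)
    exact hCc.closure_subset_iff.2 h5 h4
  · exact nhds_mono hle

/-- a copy of the ring, to carry another topology -/
def Cp (R : Type u) : Type u := R

instance (R : Type u) [CommRing R] : CommRing (Cp R) := inferInstanceAs (CommRing R)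

theorem min_restrict {R : Type u} {K : Type v} [CommRing R] [tR : TopologicalSpace R]
    [IsTopologicalRing R] [Nontrivial R]
    [Field K] [tK : TopologicalSpace K] [IsTopologicalRing K] (f : R →+* K)
    (hind : IsInducing f) (hd : DenseRange f) (hmin : Min K) : Min R := by
  intro s hT2 hle
  letI tC : TopologicalSpace (Cp R) := s.toTopologicalSpace
  haveI : IsTopologicalRing (Cp R) := s.toIsTopologicalRing
  haveI : T2Space (Cp R) := hT2
  letI uC : UniformSpace (Cp R) := IsTopologicalAddGroup.rightUniformSpace (Cp R)
  haveI : IsUniformAddGroup (Cp R) := isUniformAddGroup_of_addCommGroup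
  letI uR : UniformSpace R := IsTopologicalAddGroup.rightUniformSpace R
  haveI : IsUniformAddGroup R := isUniformAddGroup_of_addCommGroup
  letI uK : UniformSpace K := IsTopologicalAddGroup.rightUniformSpace K
  haveI : IsUniformAddGroup K := isUniformAddGroup_of_addCommGroup
  let ι : R →+* Cp R := RingHom.id R
  have hι : Continuous ι := continuous_id_iff_le.2 hle
  let g : R →+* Completion (Cp R) := (Completion.coeRingHom (α := Cp R)).comp ι
  have hg : Continuous g := (Completion.continuous_coe (Cp R)).comp hι
  have hgu : UniformContinuous g := uniformContinuous_addMonoidHom_of_continuous (f := g.toAddMonoidHom) hg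
  have hfu : IsUniformInducing f := by
    refine ⟨?_⟩
    rw [uniformity_eq_comap_nhds_zero K, uniformity_eq_comap_nhds_zero R, comap_comap]
    have h1 : (fun x : K × K => x.2 - x.1) ∘ (fun x : R × R => (f x.1, f x.2)) =
        f ∘ (fun x : R × R => x.2 - x.1) := by
      funext x
      simp
    rw [h1, ← comap_comap]
    congr 1
    rw [hind.nhds_eq_comap, map_zero]
  let G : K →+* Completion (Cp R) := IsDenseInducing.extendRingHom hfu hd hgu
  have hGc : Continuous G := (uniformContinuous_uniformly_extend hfu hd hgu).continuous
  have hGf : ∀ x, G (f x) = g x := fun x =>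
    IsDenseInducing.extend_eq (hfu.isDenseInducing hd) hg x
  haveI : Nontrivial (Cp R) := inferInstanceAs (Nontrivial R)
  haveI : Nontrivial (Completion (Cp R)) := by
    refine ⟨⟨((0 : Cp R) : Completion (Cp R)), ((1 : Cp R) : Completion (Cp R)), ?_⟩⟩
    intro h0
    exact zero_ne_one (Completion.coe_injective (Cp R) h0)
  have hGinj : Function.Injective G := G.injective
  have heq := hmin (inducedRT G) (t2_inducedRT G hGinj) (continuous_iff_le_induced.1 hGc)
  rw [inducedRT_eq] at heq
  have h1 : tR = TopologicalSpace.induced f tK := hind.eq_induced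
  have h2 : (s.toTopologicalSpace : TopologicalSpace R) =
      TopologicalSpace.induced g inferInstance := by
    have h3 : IsInducing ((↑) : Cp R → Completion (Cp R)) :=
      (Completion.isUniformInducing_coe (Cp R)).isInducing
    exact h3.eq_induced
  have h4 : (g : R → Completion (Cp R)) = G ∘ f := by
    funext x
    exact (hGf x).symm
  rw [h2, h4, ← induced_compose, heq]
  exact h1.symm

theorem exists_field {R : Type u} [CommRing R] [UniformSpace R] [IsUniformAddGroup R]
    [IsTopologicalRing R] [T2Space R] [Nontrivial R] [Countable R] (hmin : Min R)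
    (h : ∀ I : Ideal R, IsClosed (I : Set R) → I = ⊥ ∨ I = ⊤) :
    ∃ (K : Type u) (_ : Field K) (_ : UniformSpace K) (_ : IsUniformAddGroup K) (f : R →+* K),
      IsTopologicalDivisionRing K ∧ PolishSpace K ∧ CompleteSpace K ∧ DenseRange f ∧
      IsInducing f ∧ Min K := by
  have hF := isField_completion hmin h
  have hN := main_completion (main_lemma hmin (simple_of_closed_ideals h))
  have hind : IsInducing ((↑) : R → Completion R) :=
    (Completion.isUniformInducing_coe R).isInducing
  have hmin' : Min (Completion R) :=
    min_ext (Completion.coeRingHom (α := R)) hind (Completion.coe_injective R)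
      Completion.denseRange_coe hmin
  letI F : Field (Completion R) := hF.toField
  have hdiv : IsTopologicalDivisionRing (Completion R) := divisionRing_of_main hN
  haveI hcg : (𝓝 (0 : R)).IsCountablyGenerated := countably_generated hmin
  haveI hcg' : (𝓝 (0 : Completion R)).IsCountablyGenerated := by
    obtain ⟨s, hs⟩ := (𝓝 (0 : R)).exists_antitone_basis
    have h1 := hs.1.hasBasis_of_isDenseInducing (Completion.isDenseInducing_coe (α := R))
    rw [Completion.coe_zero] at h1
    exact h1.isCountablyGenerated
  haveI hug : (uniformity (Completion R)).IsCountablyGenerated := by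
    rw [uniformity_eq_comap_nhds_zero (Completion R)]
    infer_instance
  haveI : TopologicalSpace.SeparableSpace (Completion R) := by
    refine ⟨range ((↑) : R → Completion R), countable_range _, Completion.denseRange_coe⟩
  have hpol : PolishSpace (Completion R) := inferInstance
  exact ⟨Completion R, F, inferInstance, inferInstance, Completion.coeRingHom, hdiv, hpol,
    inferInstance, Completion.denseRange_coe, hind, hmin'⟩

end Pool.Agent.Helper24.MinZ
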